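import Mathlib
import Pool.Agent.H19.Shearer

set_option autoImplicit false

namespace Pool.Agent.Results.MP_2cfe26_al.Vanishing

open Filter Topology
open scoped Pointwise ENNReal Classical

universe u v w w'

section defs
variable {G : Type u} (A : Type v) {ι : Type w} [Group G] [AddCommGroup A] [DistribMulAction G A]

/-- A right Følner net (indexed along the filter `l`). -/
def RightFolner (l : Filter ι) (F : ι → Finset G) : Prop :=
  (∀ i, (F i).Nonempty) ∧ ∀ E : Finset G,
    Tendsto (fun i => (((F i).filter fun s => ¬ ∀ e ∈ E, s * e ∈ F i).card : ℝ) / (F i).card) l (𝓝 0)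

variable {A} in
/-- `H_alg(α,X) = lim log |T_{F_i}(α,X)| / |F_i|` with `T_F(α,X) = ∑_{g ∈ F} g • X`; along a
right Følner net the limit exists, so it equals the upper limit. -/
noncomputable def Halg (l : Filter ι) (F : ι → Finset G) (X : Set A) : ℝ≥0∞ :=
  limsup (fun i => ENNReal.ofReal (Real.log (∑ g ∈ F i, g • X).ncard / (F i).card)) l

/-- `ent(α)`: the supremum over finite subgroups. -/
noncomputable def ent (l : Filter ι) (F : ι → Finset G) : ℝ≥0∞ :=
  ⨆ (X : AddSubgroup A) (_ : Finite X), Halg l F (X : Set A)

end defs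

open Pool.Agent.H19.Shearer in
/-- If the restriction to a subgroup of infinite index has finite entropy `ent`, the action has
zero entropy `ent`. -/
theorem result {G : Type u} {A : Type v} [Group G] [AddCommGroup A] [DistribMulAction G A]
    (H : Subgroup G) {ι : Type w} {κ : Type w'} (l : Filter ι) [l.NeBot] (F : ι → Finset G)
    (hF : RightFolner l F) (l' : Filter κ) [l'.NeBot] (E : κ → Finset H) (hE : RightFolner l' E)
    (hH : H.index = 0) (h : ent A l' E < ⊤) : ent A l F = 0 :=
  le_antisymm (iSup₂_le fun X hX => (vanish H hH h.ne fun S h1 h2 => by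
    obtain ⟨Y, hY, h3⟩ := sum_subgroup X hX S
    refine (sub_le (l' := l') hF.1 (fun g => of_filter (hF.2 {g})) H hE.1 hX ⟨0, zero_mem X⟩ S
      h1 h2).trans (le_iSup₂_of_le Y hY ?_)
    rw [h3]
    exact le_rfl).le) bot_le

end Pool.Agent.Results.MP_2cfe26_al.Vanishing
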